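import Pool.Agent.Helper97.SEC3.Run

/-!
# Greedy colouring of the stars of a run
-/

set_option autoImplicit false
set_option linter.unusedSectionVars false

namespace Pool.Agent.Helper97.SEC3

open Finset
open scoped Classical

variable {V : Type} [Fintype V]

theorem greedy {K : ℕ} (hK : 0 < K) (rk : V → ℕ) (hinj : Function.Injective rk)
    (B : V → Finset V) (hB : ∀ v, (B v).card < K) :
    ∃ c : V → Fin K, ∀ y, ∀ y' ∈ B y, rk y' < rk y → c y' ≠ c y := by
  have key : ∀ m : ℕ, ∃ c : V → Fin K, ∀ y, rk y < m → ∀ y' ∈ B y, rk y' < rk y →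
      c y' ≠ c y := by
    intro m
    induction m with
    | zero => exact ⟨fun _ => ⟨0, hK⟩, fun y hy => absurd hy (Nat.not_lt_zero _)⟩
    | succ m ih =>
      obtain ⟨c, hc⟩ := ih
      by_cases h : ∃ y, rk y = m
      · obtain ⟨y, hy⟩ := h
        have h1 : ((B y).image c).card < Fintype.card (Fin K) := by
          rw [Fintype.card_fin]
          exact lt_of_le_of_lt card_image_le (hB y)
        obtain ⟨a, ha⟩ : ∃ a, a ∉ (B y).image c := by
          by_contra hcon
          push Not at hcon
          have : (B y).image c = univ := eq_univ_of_forall hcon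
          rw [this, card_univ] at h1
          exact lt_irrefl _ h1
        refine ⟨Function.update c y a, ?_⟩
        intro u hu v hv hvu
        have hvy : v ≠ y := by
          rintro rfl
          omega
        rw [Function.update_of_ne hvy]
        by_cases huy : u = y
        · subst huy
          rw [Function.update_self]
          intro hcv
          exact ha (mem_image.2 ⟨v, hv, hcv⟩)
        · rw [Function.update_of_ne huy]
          have : rk u ≠ m := fun h => huy (hinj (h.trans hy.symm))
          exact hc u (by omega) v hv hvu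
      · refine ⟨c, fun u hu => hc u ?_⟩
        have : rk u ≠ m := fun h' => h ⟨u, h'⟩
        omega
  obtain ⟨c, hc⟩ := key ((univ.sup rk) + 1)
  exact ⟨c, fun y y' hy' h => hc y (Nat.lt_succ_of_le (le_sup (f := rk) (mem_univ y))) y' hy' h⟩

/-- colour of the heads such that arcs with the same colour form an induced matching -/
theorem colouring {G : SimpleGraph V} {U : Finset V} {D : ℕ} (hD : ∀ v, dg G v ≤ D) (hD0 : 0 < D)
    (R : Run G U) (j : ℕ) :
    ∃ c : V → Fin (D + j), ∀ y ∈ R.H, ∀ y' ∈ R.H, lo G R.t y ≤ j → lo G R.t y' ≤ j →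
      c y = c y' → y ≠ y' →
      (R.par y ≠ R.par y' ∧ R.par y ≠ y' ∧ y ≠ R.par y') ∧
      (¬ G.Adj (R.par y) (R.par y') ∧ ¬ G.Adj (R.par y) y' ∧ ¬ G.Adj y (R.par y') ∧
        ¬ G.Adj y y') := by
  set n := Fintype.card V with hn
  let e := Fintype.equivFin V
  set rk : V → ℕ := fun v => R.t v * n + (e v : ℕ) with hrk
  have hlt : ∀ v, (e v : ℕ) < n := fun v => (e v).2
  have hrklt : ∀ u v, R.t u < R.t v → rk u < rk v := by
    intro u v huv
    have h1 : (R.t u + 1) * n ≤ R.t v * n := Nat.mul_le_mul_right n huv
    have h2 := hlt u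
    simp only [hrk]
    rw [add_mul, one_mul] at h1
    omega
  have hinj : Function.Injective rk := by
    intro u v huv
    have h3 : R.t u = R.t v := by
      rcases lt_trichotomy (R.t u) (R.t v) with h | h | h
      · exact absurd huv (hrklt u v h).ne
      · exact h
      · exact absurd huv (hrklt v u h).ne'
    simp only [hrk, h3] at huv
    exact e.injective (Fin.ext (by omega))
  set B : V → Finset V := fun y => if y ∈ R.H ∧ lo G R.t y ≤ j then
    ((univ.filter (fun v => G.Adj (R.par y) v)).erase y) ∪
      (univ.filter (fun v => G.Adj y v ∧ R.t v < R.t y)) else ∅ with hBdef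
  have hB : ∀ v, (B v).card < D + j := by
    intro v
    simp only [hBdef]
    split_ifs with h
    · refine lt_of_le_of_lt (card_union_le _ _) ?_
      have h1 : v ∈ univ.filter (fun u => G.Adj (R.par v) u) := by
        simp only [mem_filter, mem_univ, true_and]
        exact R.hadj v h.1
      rw [card_erase_of_mem h1]
      have h2 := hD (R.par v)
      have h3 := h.2
      unfold dg at h2
      unfold lo at h3
      omega
    · simp only [card_empty]
      omega
  obtain ⟨c, hc⟩ := greedy (by omega) rk hinj B hB
  refine ⟨c, ?_⟩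
  -- the case of a strictly earlier star
  have main : ∀ y ∈ R.H, ∀ y' ∈ R.H, lo G R.t y ≤ j → c y = c y' →
      R.t y' < R.t y →
      (R.par y ≠ R.par y' ∧ R.par y ≠ y' ∧ y ≠ R.par y') ∧
      (¬ G.Adj (R.par y) (R.par y') ∧ ¬ G.Adj (R.par y) y' ∧ ¬ G.Adj y (R.par y') ∧
        ¬ G.Adj y y') := by
    intro y hy y' hy' hl hcc ht
    have hp := R.hpt y hy
    have hp' := R.hpt y' hy'
    have hyy : y' ≠ y := fun h => by rw [h] at ht; exact lt_irrefl _ ht
    refine ⟨⟨?_, ?_, ?_⟩, ?_, ?_, ?_, ?_⟩
    · intro h
      rw [h] at hp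
      omega
    · intro h
      rw [h] at hp
      omega
    · intro h
      rw [← h] at hp'
      omega
    · intro h
      exact R.hlt y' hy' (R.par y) (by omega) h.symm
    · intro h
      refine hc y y' ?_ (hrklt _ _ ht) hcc.symm
      simp only [hBdef, hy, hl, and_self, if_true, mem_union, mem_erase, mem_filter, mem_univ,
        true_and]
      exact Or.inl ⟨hyy, h⟩
    · intro h
      exact R.hlt y' hy' y ht h.symm
    · intro h
      refine hc y y' ?_ (hrklt _ _ ht) hcc.symm
      simp only [hBdef, hy, hl, and_self, if_true, mem_union, mem_erase, mem_filter, mem_univ,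
        true_and]
      exact Or.inr ⟨h, ht⟩
  -- the same star
  have same : ∀ y ∈ R.H, ∀ y' ∈ R.H, lo G R.t y ≤ j → R.t y = R.t y' → rk y' < rk y →
      c y ≠ c y' := by
    intro y hy y' hy' hl ht hr hcc
    refine hc y y' ?_ hr hcc.symm
    have hyy : y' ≠ y := fun h => by rw [h] at hr; exact lt_irrefl _ hr
    simp only [hBdef, hy, hl, and_self, if_true, mem_union, mem_erase, mem_filter, mem_univ,
      true_and]
    refine Or.inl ⟨hyy, ?_⟩
    rw [R.heq y hy y' hy' ht]
    exact R.hadj y' hy'
  intro y hy y' hy' hl hl' hcc hne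
  rcases lt_trichotomy (R.t y) (R.t y') with h | h | h
  · have := main y' hy' y hy hl' hcc.symm h
    refine ⟨⟨this.1.1.symm, this.1.2.2.symm, this.1.2.1.symm⟩, fun h => this.2.1 h.symm,
      fun h => this.2.2.2.1 ?_, fun h => this.2.2.1 ?_, fun h => this.2.2.2.2 h.symm⟩
    · exact h.symm
    · exact h.symm
  · exfalso
    rcases lt_trichotomy (rk y) (rk y') with h1 | h1 | h1
    · exact same y' hy' y hy hl' h.symm h1 hcc.symm
    · exact hne (hinj h1)
    · exact same y hy y' hy' hl h h1 hcc
  · exact main y hy y' hy' hl hcc h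

end Pool.Agent.Helper97.SEC3
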