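import Mathlib

/-!
# Runs of the star process on a graph

`U` is the set of vertices which are not yet removed. A step chooses a vertex `z` of `U`, joins
every neighbour of `z` in `U` to `z` and removes `z` and these neighbours from `U`.
-/

set_option autoImplicit false

namespace Pool.Agent.Helper97.SEC3

open Finset
open scoped Classical

set_option linter.unusedSectionVars false

variable {V : Type} [Fintype V]

/-- the degree of a vertex -/
noncomputable def dg (G : SimpleGraph V) (v : V) : ℕ := (univ.filter (fun u => G.Adj v u)).card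

/-- neighbours of `y` with smaller time -/
noncomputable def lo (G : SimpleGraph V) (t : V → ℕ) (y : V) : ℕ :=
  (univ.filter (fun v => G.Adj y v ∧ t v < t y)).card

/-- neighbours of `y` outside `U` -/
noncomputable def dout (G : SimpleGraph V) (U : Finset V) (y : V) : ℕ :=
  (univ.filter (fun v => G.Adj y v ∧ v ∉ U)).card

/-- `U` after the step with centre `z` -/
noncomputable def step (G : SimpleGraph V) (U : Finset V) (z : V) : Finset V :=
  U.filter (fun v => v ≠ z ∧ ¬ G.Adj z v)

/-- a run of the process, started with the set `U`: `H` is the set of heads, `par y` the centre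
joined to `y`, `t v` the number of the step at which `v` is removed (`0` outside `U`) -/
structure Run (G : SimpleGraph V) (U : Finset V) where
  H : Finset V
  par : V → V
  t : V → ℕ
  ht0 : ∀ v, t v = 0 ↔ v ∉ U
  hHU : ∀ y ∈ H, y ∈ U
  hadj : ∀ y ∈ H, G.Adj (par y) y
  hparU : ∀ y ∈ H, par y ∈ U
  hpt : ∀ y ∈ H, t (par y) = t y
  hparH : ∀ y ∈ H, par y ∉ H
  hlt : ∀ y ∈ H, ∀ v, t y < t v → ¬ G.Adj (par y) v
  heq : ∀ y ∈ H, ∀ y' ∈ H, t y = t y' → par y = par y'

/-- the run which stops at once -/
noncomputable def Run.nil (G : SimpleGraph V) : Run G (∅ : Finset V) where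
  H := ∅
  par := id
  t := fun _ => 0
  ht0 := by intro v; simp
  hHU := by intro y hy; simp at hy
  hadj := by intro y hy; simp at hy
  hparU := by intro y hy; simp at hy
  hpt := by intro y hy; simp at hy
  hparH := by intro y hy; simp at hy
  hlt := by intro y hy; simp at hy
  heq := by intro y hy; simp at hy

theorem step_sub (G : SimpleGraph V) (U : Finset V) (z : V) : step G U z ⊆ U := filter_subset _ _

theorem mem_step {G : SimpleGraph V} {U : Finset V} {z v : V} :
    v ∈ step G U z ↔ v ∈ U ∧ v ≠ z ∧ ¬ G.Adj z v := by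
  simp [step]

/-- one step in front of a run -/
noncomputable def Run.cons {G : SimpleGraph V} {U : Finset V} (z : V) (hz : z ∈ U)
    (R : Run G (step G U z)) : Run G U where
  H := R.H ∪ U.filter (fun v => G.Adj z v)
  par := fun v => if v ∈ R.H then R.par v else z
  t := fun v => if v ∈ U then R.t v + 1 else 0
  ht0 := by
    intro v
    by_cases hv : v ∈ U <;> simp [hv]
  hHU := by
    intro y hy
    rcases mem_union.1 hy with h | h
    · exact step_sub G U z (R.hHU y h)
    · exact (mem_filter.1 h).1
  hadj := by
    intro y hy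
    by_cases h : y ∈ R.H
    · simp only [h, if_true]; exact R.hadj y h
    · simp only [h, if_false]
      rcases mem_union.1 hy with h' | h'
      · exact absurd h' h
      · exact (mem_filter.1 h').2
  hparU := by
    intro y hy
    by_cases h : y ∈ R.H
    · simp only [h, if_true]; exact step_sub G U z (R.hparU y h)
    · simp only [h, if_false]; exact hz
  hpt := by
    intro y hy
    by_cases h : y ∈ R.H
    · have h1 := step_sub G U z (R.hparU y h)
      have h2 := step_sub G U z (R.hHU y h)
      simp only [h, if_true, h1, h2, R.hpt y h]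
    · rcases mem_union.1 hy with h' | h'
      · exact absurd h' h
      · have h1 := (mem_filter.1 h').1
        have h2 : R.t y = 0 := (R.ht0 y).2 (fun h3 => (mem_step.1 h3).2.2 (mem_filter.1 h').2)
        have h3 : R.t z = 0 := (R.ht0 z).2 (fun h3 => (mem_step.1 h3).2.1 rfl)
        simp only [h, if_false, hz, h1, if_true, h2, h3]
  hparH := by
    intro y hy
    by_cases h : y ∈ R.H
    · simp only [h, if_true]
      intro h1
      rcases mem_union.1 h1 with h' | h'
      · exact R.hparH y h h'
      · exact (mem_step.1 (R.hparU y h)).2.2 (mem_filter.1 h').2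
    · simp only [h, if_false]
      intro h1
      rcases mem_union.1 h1 with h' | h'
      · exact (mem_step.1 (R.hHU z h')).2.1 rfl
      · exact G.loopless.irrefl z (mem_filter.1 h').2
  hlt := by
    intro y hy v hv
    have hyU : y ∈ U := by
      rcases mem_union.1 hy with h | h
      · exact step_sub G U z (R.hHU y h)
      · exact (mem_filter.1 h).1
    have hvU : v ∈ U := by
      by_contra hvU
      simp [hvU] at hv
    simp only [hyU, hvU, if_true] at hv
    by_cases h : y ∈ R.H
    · simp only [h, if_true]
      exact R.hlt y h v (by omega)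
    · simp only [h, if_false]
      have h1 : R.t v ≠ 0 := by omega
      have h2 : v ∈ step G U z := by
        by_contra h3
        exact h1 ((R.ht0 v).2 h3)
      exact (mem_step.1 h2).2.2
  heq := by
    intro y hy y' hy' h
    have hyU : y ∈ U := by
      rcases mem_union.1 hy with h | h
      · exact step_sub G U z (R.hHU y h)
      · exact (mem_filter.1 h).1
    have hyU' : y' ∈ U := by
      rcases mem_union.1 hy' with h | h
      · exact step_sub G U z (R.hHU y' h)
      · exact (mem_filter.1 h).1
    simp only [hyU, hyU', if_true] at h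
    have key : ∀ v ∈ R.H ∪ U.filter (fun v => G.Adj z v), (v ∈ R.H ↔ R.t v ≠ 0) := by
      intro v hv
      constructor
      · intro h1 h2
        exact (R.ht0 v).1 h2 (R.hHU v h1)
      · intro h1
        rcases mem_union.1 hv with h' | h'
        · exact h'
        · exfalso
          apply h1
          exact (R.ht0 v).2 (fun h3 => (mem_step.1 h3).2.2 (mem_filter.1 h').2)
    by_cases h1 : y ∈ R.H
    · have h2 : y' ∈ R.H := by
        rw [key y' hy']
        have := (key y hy).1 h1
        omega
      simp only [h1, h2, if_true]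
      exact R.heq y h1 y' h2 (by omega)
    · have h2 : y' ∉ R.H := by
        intro h2
        apply h1
        rw [key y hy]
        have := (key y' hy').1 h2
        omega
      simp only [h1, h2, if_false]

/-- the number of colourings which contain the edge `x y` -/
noncomputable def cov {G : SimpleGraph V} {U : Finset V} (D : ℕ) (R : Run G U) (x y : V) : ℝ :=
  (if y ∈ R.H ∧ R.par y = x then (D : ℝ) - lo G R.t y else 0) +
    (if x ∈ R.H ∧ R.par x = y then (D : ℝ) - lo G R.t x else 0)

theorem lo_le (G : SimpleGraph V) (t : V → ℕ) (y : V) : lo G t y ≤ dg G y := by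
  refine card_le_card ?_
  intro v hv
  simp only [mem_filter, mem_univ, true_and] at hv ⊢
  exact hv.1

theorem cov_nonneg {G : SimpleGraph V} {U : Finset V} {D : ℕ} (hD : ∀ v, dg G v ≤ D)
    (R : Run G U) (x y : V) : 0 ≤ cov D R x y := by
  have h : ∀ v, (0 : ℝ) ≤ (D : ℝ) - lo G R.t v := by
    intro v
    have h1 : ((lo G R.t v : ℕ) : ℝ) ≤ D := by exact_mod_cast (lo_le G R.t v).trans (hD v)
    linarith
  unfold cov
  refine add_nonneg ?_ ?_
  · split_ifs
    · exact h _
    · exact le_rfl
  · split_ifs
    · exact h _
    · exact le_rfl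

theorem lo_cons_old {G : SimpleGraph V} {U : Finset V} {z : V} (hz : z ∈ U)
    (R : Run G (step G U z)) {y : V} (hy : y ∈ step G U z) :
    lo G (Run.cons z hz R).t y = lo G R.t y := by
  unfold lo
  congr 1
  ext v
  simp only [mem_filter, mem_univ, true_and, Run.cons]
  have hyU := step_sub G U z hy
  simp only [hyU, if_true]
  have h1 : R.t y ≠ 0 := fun h => (R.ht0 y).1 h hy
  by_cases hv : v ∈ U
  · simp [hv]
  · have h2 : R.t v = 0 := (R.ht0 v).2 (fun h => hv (step_sub G U z h))
    have h3 : 0 < R.t y := by omega
    simp [hv, h2, h3]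

theorem lo_cons_new {G : SimpleGraph V} {U : Finset V} {z : V} (hz : z ∈ U)
    (R : Run G (step G U z)) {y : V} (hy : y ∈ U) (hzy : G.Adj z y) :
    lo G (Run.cons z hz R).t y = dout G U y := by
  unfold lo dout
  congr 1
  ext v
  simp only [mem_filter, mem_univ, true_and, Run.cons]
  have h1 : R.t y = 0 := (R.ht0 y).2 (fun h => (mem_step.1 h).2.2 hzy)
  simp only [hy, if_true, h1]
  by_cases hv : v ∈ U
  · simp [hv]
  · simp [hv]

theorem cov_cons_far {G : SimpleGraph V} {U : Finset V} {z : V} (D : ℕ) (hz : z ∈ U)
    (R : Run G (step G U z)) {x y : V} (hx : x ∈ step G U z) (hy : y ∈ step G U z) :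
    cov D (Run.cons z hz R) x y = cov D R x y := by
  have hH : ∀ v ∈ step G U z, (v ∈ (Run.cons z hz R).H ↔ v ∈ R.H) := by
    intro v hv
    simp only [Run.cons, mem_union, mem_filter]
    constructor
    · rintro (h | h)
      · exact h
      · exact absurd h.2 (mem_step.1 hv).2.2
    · exact fun h => Or.inl h
  have hp : ∀ v ∈ R.H, (Run.cons z hz R).par v = R.par v := by
    intro v hv
    simp [Run.cons, hv]
  have hc : ∀ a ∈ step G U z, ∀ b ∈ step G U z,
      (b ∈ (Run.cons z hz R).H ∧ (Run.cons z hz R).par b = a ↔ b ∈ R.H ∧ R.par b = a) := by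
    intro a ha b hb
    rw [hH b hb]
    constructor
    · rintro ⟨h1, h2⟩
      exact ⟨h1, by rw [← hp b h1]; exact h2⟩
    · rintro ⟨h1, h2⟩
      exact ⟨h1, by rw [hp b h1]; exact h2⟩
  unfold cov
  rw [lo_cons_old hz R hx, lo_cons_old hz R hy]
  simp only [hc x hx y hy, hc y hy x hx]

theorem cov_cons_left {G : SimpleGraph V} {U : Finset V} {D : ℕ} (hD : ∀ v, dg G v ≤ D) {x : V}
    (hx : x ∈ U) (R : Run G (step G U x)) {y : V} (hy : y ∈ U) (hxy : G.Adj x y) :
    (D : ℝ) - dout G U y ≤ cov D (Run.cons x hx R) x y := by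
  have h1 : y ∈ (Run.cons x hx R).H ∧ (Run.cons x hx R).par y = x := by
    have h2 : y ∉ R.H := fun h => (mem_step.1 (R.hHU y h)).2.2 hxy
    refine ⟨?_, ?_⟩
    · simp [Run.cons, hy, hxy]
    · simp [Run.cons, h2]
  have h3 : (0 : ℝ) ≤ (if x ∈ (Run.cons x hx R).H ∧ (Run.cons x hx R).par x = y then
      (D : ℝ) - lo G (Run.cons x hx R).t x else 0) := by
    split_ifs
    · have h1 : ((lo G (Run.cons x hx R).t x : ℕ) : ℝ) ≤ D := by
        exact_mod_cast (lo_le G _ x).trans (hD x)
      linarith
    · exact le_rfl
  unfold cov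
  rw [if_pos h1, lo_cons_new hx R hy hxy]
  linarith

theorem cov_symm {G : SimpleGraph V} {U : Finset V} (D : ℕ) (R : Run G U) (x y : V) :
    cov D R x y = cov D R y x := by
  unfold cov
  rw [add_comm]

theorem cov_cons_right {G : SimpleGraph V} {U : Finset V} {D : ℕ} (hD : ∀ v, dg G v ≤ D) {y : V}
    (hy : y ∈ U) (R : Run G (step G U y)) {x : V} (hx : x ∈ U) (hxy : G.Adj x y) :
    (D : ℝ) - dout G U x ≤ cov D (Run.cons y hy R) x y := by
  rw [cov_symm]
  exact cov_cons_left hD hy R hx hxy.symm

end Pool.Agent.Helper97.SEC3
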