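import Pool.Agent.Helper97.SEC3.Run

/-!
# A random run covers every edge at least once on average
-/

set_option autoImplicit false
set_option linter.unusedSectionVars false

namespace Pool.Agent.Helper97.SEC3

open Finset
open scoped Classical

variable {V : Type} [Fintype V]

theorem card_in_add (G : SimpleGraph V) (U : Finset V) (y : V) :
    (U.filter (fun v => G.Adj y v)).card + dout G U y = dg G y := by
  unfold dout dg
  rw [← card_union_of_disjoint]
  · congr 1
    ext v
    simp only [mem_union, mem_filter, mem_univ, true_and]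
    tauto
  · rw [disjoint_left]
    intro v hv hv'
    simp only [mem_filter, mem_univ, true_and] at hv hv'
    exact hv'.2 hv.1

theorem card_bad_le (G : SimpleGraph V) (U : Finset V) {x y : V} (hx : x ∈ U) (hy : y ∈ U)
    (hxy : G.Adj x y) :
    (U.filter (fun z => ¬ (x ∈ step G U z ∧ y ∈ step G U z))).card ≤
      (U.filter (fun v => G.Adj x v)).card + (U.filter (fun v => G.Adj y v)).card := by
  refine le_trans (card_le_card ?_) (card_union_le _ _)
  intro z hz
  simp only [mem_filter, mem_union, mem_step] at hz ⊢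
  obtain ⟨hzU, hz⟩ := hz
  by_cases h1 : x = z
  · subst h1
    exact Or.inr ⟨hzU, hxy.symm⟩
  by_cases h2 : y = z
  · subst h2
    exact Or.inl ⟨hzU, hxy⟩
  by_cases h3 : G.Adj z x
  · exact Or.inl ⟨hzU, h3.symm⟩
  by_cases h4 : G.Adj z y
  · exact Or.inr ⟨hzU, h4.symm⟩
  exact absurd ⟨⟨hx, h1, h3⟩, ⟨hy, h2, h4⟩⟩ hz

theorem tree {D : ℕ} {G : SimpleGraph V} (hD : ∀ v, dg G v ≤ D) :
    ∀ (n : ℕ) (U : Finset V), U.card = n →
      ∃ (Ω : Type) (_ : Fintype Ω) (p : Ω → ℝ) (R : Ω → Run G U),
        (∀ ω, 0 ≤ p ω) ∧ ∑ ω, p ω = 1 ∧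
        ∀ x ∈ U, ∀ y ∈ U, G.Adj x y → 1 ≤ ∑ ω, p ω * cov D (R ω) x y := by
  intro n
  induction n using Nat.strong_induction_on with
  | _ n ih =>
  intro U hU
  rcases U.eq_empty_or_nonempty with rfl | hne
  · exact ⟨Unit, inferInstance, fun _ => 1, fun _ => Run.nil G, by simp, by simp, by simp⟩
  · have hstep : ∀ z : U, (step G U z.1).card < n := by
      intro z
      rw [← hU]
      exact card_lt_card ⟨step_sub G U z.1, fun h => (mem_step.1 (h z.2)).2.1 rfl⟩
    choose Ω hF p R hp0 hp1 hcov using fun z : U => ih _ (hstep z) (step G U z.1) rfl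
    have hUpos : (0 : ℝ) < U.card := by
      exact_mod_cast hne.card_pos
    refine ⟨(z : U) × Ω z, inferInstance, fun w => p w.1 w.2 / U.card,
      fun w => Run.cons w.1.1 w.1.2 (R w.1 w.2), ?_, ?_, ?_⟩
    · intro w
      exact div_nonneg (hp0 _ _) hUpos.le
    · rw [Fintype.sum_sigma]
      simp only [← Finset.sum_div, hp1]
      simp only [sum_const, card_univ, Fintype.card_coe, nsmul_eq_mul, mul_one]
      exact div_self hUpos.ne'
    · intro x hx y hy hxy
      rw [Fintype.sum_sigma]
      have hxney : x ≠ y := hxy.ne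
      set l : V → ℝ := fun z => (if z = x then (D : ℝ) - dout G U y else 0) +
        (if z = y then (D : ℝ) - dout G U x else 0) +
        (if x ∈ step G U z ∧ y ∈ step G U z then 1 else 0) with hl
      have key : ∀ z : U, l z.1 ≤ ∑ ω, p z ω * cov D (Run.cons z.1 z.2 (R z ω)) x y := by
        intro z
        obtain ⟨z, hz⟩ := z
        by_cases h1 : z = x
        · subst h1
          have h3 : ¬ (z ∈ step G U z ∧ y ∈ step G U z) := fun h => (mem_step.1 h.1).2.1 rfl
          simp only [hl, if_true, hxney, if_false, h3, add_zero]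
          calc (D : ℝ) - dout G U y = ∑ ω, p ⟨z, hz⟩ ω * ((D : ℝ) - dout G U y) := by
                rw [← Finset.sum_mul, hp1, one_mul]
            _ ≤ _ := Finset.sum_le_sum (fun ω _ => mul_le_mul_of_nonneg_left
                (cov_cons_left hD hz (R ⟨z, hz⟩ ω) hy hxy) (hp0 _ _))
        by_cases h2 : z = y
        · subst h2
          have h3 : ¬ (x ∈ step G U z ∧ z ∈ step G U z) := fun h => (mem_step.1 h.2).2.1 rfl
          simp only [hl, if_true, h1, if_false, h3, add_zero, zero_add]
          calc (D : ℝ) - dout G U x = ∑ ω, p ⟨z, hz⟩ ω * ((D : ℝ) - dout G U x) := by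
                rw [← Finset.sum_mul, hp1, one_mul]
            _ ≤ _ := Finset.sum_le_sum (fun ω _ => mul_le_mul_of_nonneg_left
                (cov_cons_right hD hz (R ⟨z, hz⟩ ω) hx hxy) (hp0 _ _))
        by_cases h3 : x ∈ step G U z ∧ y ∈ step G U z
        · simp only [hl, h1, h2, if_false, h3, and_self, if_true, zero_add]
          have := hcov ⟨z, hz⟩ x h3.1 y h3.2 hxy
          refine this.trans (le_of_eq (Finset.sum_congr rfl (fun ω _ => ?_)))
          rw [cov_cons_far D hz (R ⟨z, hz⟩ ω) h3.1 h3.2]
        · simp only [hl, h1, h2, if_false, h3, add_zero]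
          exact Finset.sum_nonneg (fun ω _ => mul_nonneg (hp0 _ _) (cov_nonneg hD _ x y))
      have hsum : (U.card : ℝ) ≤ ∑ z : U, l z.1 := by
        rw [Finset.sum_coe_sort U l]
        simp only [hl]
        rw [Finset.sum_add_distrib, Finset.sum_add_distrib, Finset.sum_ite_eq' U x,
          Finset.sum_ite_eq' U y, if_pos hx, if_pos hy, ← Finset.sum_filter,
          Finset.sum_const, nsmul_eq_mul, mul_one]
        have h1 := card_bad_le G U hx hy hxy
        have h2 := card_in_add G U x
        have h3 := card_in_add G U y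
        have h4 := hD x
        have h5 := hD y
        have h6 : (U.filter (fun z => x ∈ step G U z ∧ y ∈ step G U z)).card +
          (U.filter (fun z => ¬ (x ∈ step G U z ∧ y ∈ step G U z))).card = U.card :=
          Finset.card_filter_add_card_filter_not _
        have h7 : U.card + dout G U x + dout G U y ≤ D + D +
          (U.filter (fun z => x ∈ step G U z ∧ y ∈ step G U z)).card := by omega
        have h8 : (U.card : ℝ) + dout G U x + dout G U y ≤ D + D +
          ((U.filter (fun z => x ∈ step G U z ∧ y ∈ step G U z)).card : ℝ) := by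
          exact_mod_cast h7
        linarith
      have h9 : ∑ z : U, ∑ ω, p z ω / U.card * cov D (Run.cons z.1 z.2 (R z ω)) x y =
          (∑ z : U, ∑ ω, p z ω * cov D (Run.cons z.1 z.2 (R z ω)) x y) / U.card := by
        rw [Finset.sum_div]
        refine Finset.sum_congr rfl (fun z _ => ?_)
        rw [Finset.sum_div]
        refine Finset.sum_congr rfl (fun ω _ => ?_)
        ring
      refine le_of_le_of_eq ?_ h9.symm
      rw [le_div_iff₀ hUpos, one_mul]
      exact hsum.trans (Finset.sum_le_sum (fun z _ => key z))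

end Pool.Agent.Helper97.SEC3
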